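import Mathlib

namespace Pool.Agent.Lib_helper10.LFQ

open Polynomial

theorem sq_ne (D : ℕ) (hD : Squarefree D) (hD1 : 1 < D) (q : ℚ) : q ^ 2 ≠ (D : ℚ) := by
  intro h
  have h1 : IsSquare ((D : ℕ) : ℚ) := ⟨q, by rw [← h]; ring⟩
  have h2 : IsSquare D := by
    exact_mod_cast (Rat.isSquare_natCast_iff.1 h1)
  obtain ⟨r, hr⟩ := h2
  have h3 : IsUnit r := hD r ⟨1, by rw [hr]; ring⟩
  have h4 : r = 1 := Nat.isUnit_iff.1 h3
  subst h4
  omega

theorem decomp (K : Type) [Field K] [NumberField K] (h2 : Module.finrank ℚ K = 2) (D : ℕ)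
    (hD : Squarefree D) (hD1 : 1 < D) (th : K) (hth : th ^ 2 = (D : K)) (z : K) :
    ∃ x y : ℚ, z = (x : K) + (y : K) * th := by
  have hnot : ∀ q : ℚ, (q : K) ≠ th := by
    intro q hq
    apply sq_ne D hD hD1 q
    have : ((q ^ 2 : ℚ) : K) = ((D : ℚ) : K) := by
      push_cast
      rw [hq, hth]
    exact_mod_cast this
  have hli : LinearIndependent ℚ ![(1 : K), th] := by
    rw [LinearIndependent.pair_iff' one_ne_zero]
    intro a ha
    apply hnot a
    rw [← ha, Algebra.smul_def]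
    simp
  have hsp := hli.span_eq_top_of_card_eq_finrank (by simp [h2])
  have hz : z ∈ Submodule.span ℚ (Set.range ![(1 : K), th]) := by rw [hsp]; trivial
  rw [Matrix.range_cons, Matrix.range_cons, Matrix.range_empty, Set.union_empty] at hz
  rw [Set.singleton_union, Submodule.mem_span_pair] at hz
  obtain ⟨a, b, hab⟩ := hz
  refine ⟨a, b, ?_⟩
  rw [← hab, Algebra.smul_def, Algebra.smul_def]
  simp

/-- rational number with integral `D y^2`, `D` squarefree, is an integer -/
theorem int_of_sqf (D : ℕ) (hD : Squarefree D) (y : ℚ) (n : ℤ) (h : (D : ℚ) * y ^ 2 = n) :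
    ∃ s : ℤ, y = s := by
  have hden : (y.den : ℤ) ^ 2 ∣ (D : ℤ) := by
    have h1 : (D : ℤ) * y.num ^ 2 = n * (y.den : ℤ) ^ 2 := by
      have hd : (y.den : ℚ) ≠ 0 := by exact_mod_cast y.den_nz
      have : (D : ℚ) * (y.num : ℚ) ^ 2 = n * (y.den : ℚ) ^ 2 := by
        rw [← h]
        have hy : y = (y.num : ℚ) / (y.den : ℚ) := (Rat.num_div_den y).symm
        have : (y.num : ℚ) = y * y.den := by
          rw [eq_comm, ← eq_div_iff hd]; exact hy
        rw [this]; ring
      exact_mod_cast this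
    have hco : IsCoprime ((y.den : ℤ) ^ 2) (y.num ^ 2) := by
      apply IsCoprime.pow
      rw [Int.isCoprime_iff_gcd_eq_one, Int.gcd_comm]
      exact y.reduced
    exact hco.dvd_of_dvd_mul_right ⟨n, by rw [h1]; ring⟩
  have hden2 : y.den * y.den ∣ D := by
    have : (y.den : ℤ) * (y.den : ℤ) ∣ (D : ℤ) := by rw [← sq]; exact hden
    exact_mod_cast this
  have h1 : y.den = 1 := Nat.isUnit_iff.1 (hD _ hden2)
  exact ⟨y.num, (Rat.coe_int_num_of_den_eq_one h1).symm⟩

theorem quad_int (K : Type) [Field K] [NumberField K] (h2 : Module.finrank ℚ K = 2) (D : ℕ)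
    (hD : Squarefree D) (hD1 : 1 < D) (th : K) (hth : th ^ 2 = (D : K)) (z : K)
    (hz : IsIntegral ℤ z) : ∃ r s : ℤ, 2 * z = (r : K) + (s : K) * th := by
  obtain ⟨x, y, hxy⟩ := decomp K h2 D hD hD1 th hth z
  by_cases hy : y = 0
  · subst hy
    have hzx : z = algebraMap ℚ K x := by rw [hxy]; simp
    rw [hzx] at hz
    have hx : IsIntegral ℤ x :=
      (isIntegral_algebraMap_iff (algebraMap ℚ K).injective).1 hz
    obtain ⟨m, hm⟩ := IsIntegrallyClosed.isIntegral_iff.1 hx
    refine ⟨2 * m, 0, ?_⟩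
    rw [hzx, ← hm]
    simp
  · have hzQ : ∀ q : ℚ, (q : K) ≠ z := by
      intro q hq
      apply sq_ne D hD hD1 ((q - x) / y)
      have hyK : (y : K) ≠ 0 := by exact_mod_cast hy
      have : (((q - x) / y : ℚ) : K) = th := by
        push_cast
        rw [hq, hxy]
        field_simp
        ring
      have h3 : ((((q - x) / y) ^ 2 : ℚ) : K) = ((D : ℚ) : K) := by
        rw [Rat.cast_pow, this, hth]; push_cast; rfl
      exact_mod_cast h3
    -- the polynomial
    set P : ℚ[X] := X ^ 2 + (C (-(2 * x)) * X + C (x ^ 2 - D * y ^ 2)) with hP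
    have hdeg : (C (-(2 * x)) * X + C (x ^ 2 - D * y ^ 2) : ℚ[X]).degree < 2 :=
      lt_of_le_of_lt degree_linear_le (by norm_num)
    have hmon : P.Monic := monic_X_pow_add hdeg
    have hroot : aeval z P = 0 := by
      rw [hP]
      simp only [map_add, map_mul, map_pow, aeval_X, aeval_C]
      rw [hxy]
      have e1 : algebraMap ℚ K (-(2 * x)) = -(2 * (x : K)) := by simp
      have e2 : algebraMap ℚ K (x ^ 2 - D * y ^ 2) = (x : K) ^ 2 - D * (y : K) ^ 2 := by simp
      rw [e1, e2]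
      have : ((x : K) + y * th) ^ 2 = x ^ 2 + 2 * x * y * th + y ^ 2 * D := by
        rw [← hth]; ring
      rw [this]; ring
    have hzint : IsIntegral ℚ z := hz.tower_top
    have hmin : minpoly ℚ z = P := by
      symm
      have hdvd := minpoly.dvd ℚ z hroot
      apply minpoly.eq_of_irreducible_of_monic _ hroot hmon
      have hnd : P.natDegree = 2 := by
        rw [hP]; compute_degree!
      refine (hmon.irreducible_iff_roots_eq_zero_of_degree_le_three (by omega) (by omega)).2 ?_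
      rw [Multiset.eq_zero_iff_forall_notMem]
      intro q hq
      have hq' : P.eval q = 0 := (mem_roots hmon.ne_zero).1 hq
      rw [hP] at hq'
      simp only [eval_add, eval_mul, eval_pow, eval_X, eval_C] at hq'
      apply sq_ne D hD hD1 ((q - x) / y)
      field_simp
      linarith
    have hZ := minpoly.isIntegrallyClosed_eq_field_fractions' ℚ hz
    rw [hmin] at hZ
    have c1 : P.coeff 1 = -(2 * x) := by
      rw [hP, coeff_add, coeff_add, coeff_X_pow, coeff_C_mul, coeff_X_one, coeff_C]; norm_num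
    have c0 : P.coeff 0 = x ^ 2 - D * y ^ 2 := by
      rw [hP, coeff_add, coeff_add, coeff_X_pow, coeff_C_mul, coeff_X_zero, coeff_C]; norm_num
    have d1 : -(2 * x) = (((minpoly ℤ z).coeff 1 : ℤ) : ℚ) := by
      rw [← c1, hZ, coeff_map]; simp
    have d0 : x ^ 2 - D * y ^ 2 = (((minpoly ℤ z).coeff 0 : ℤ) : ℚ) := by
      rw [← c0, hZ, coeff_map]; simp
    obtain ⟨s, hs⟩ := int_of_sqf D hD (2 * y)
      ((minpoly ℤ z).coeff 1 ^ 2 - 4 * (minpoly ℤ z).coeff 0) (by
        push_cast
        rw [← d1, ← d0]; ring)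
    refine ⟨-(minpoly ℤ z).coeff 1, s, ?_⟩
    have hx2 : 2 * (x : K) = ((-(minpoly ℤ z).coeff 1 : ℤ) : K) := by
      have : 2 * x = ((-(minpoly ℤ z).coeff 1 : ℤ) : ℚ) := by
        push_cast; linarith
      exact_mod_cast this
    have hy2 : 2 * (y : K) = ((s : ℤ) : K) := by exact_mod_cast hs
    rw [← hx2, ← hy2, hxy]; ring

end Pool.Agent.Lib_helper10.LFQ
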